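import Pool.Agent.P8H86.ST.Main

/-!
# An efficient exact uniform sampler for the spanning trees of simplicial complexes
-/

set_option autoImplicit false

open Pool.Agent.P8H86.ST
open scoped ENNReal

/-- There is a probabilistic Turing machine `M` and there are polynomials `p`, `q` such that, for
every finite simplicial complex `Δ` of dimension `d ≥ 1`, given by any list `x` of its faces, `M`
outputs each `d`-dimensional spanning tree `Υ` of `Δ` with probability exactly `1 / |𝒯(Δ)|` (and
there is a spanning tree); its expected running time is at most `p (|x|)`, and it is at most `q n`,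
`n` the number of faces of `Δ`, if the vertices of `Δ` are among `0, ..., n - 1`. -/
theorem Pool.Agent.Results.MP_d8fb5e_lc.ExactSampler.result :
    ∃ (M : RandTM) (p q : Polynomial ℕ), ∀ (Δ : Finset (Finset ℕ)) (d : ℕ),
      1 ≤ d → IsComplex Δ → HasDim Δ d → ∀ x ∈ Codes Δ,
        (trees Δ d).Nonempty ∧
        (∀ Υ ∈ trees Δ d, M.probOut x (Codes Υ) = 1 / ((trees Δ d).card : ℝ≥0∞)) ∧
        M.expectedTime x ≤ ((p.eval x.length : ℕ) : ℝ≥0∞) ∧
        ((∀ σ ∈ Δ, ∀ v ∈ σ, v < Δ.card) →
          M.expectedTime x ≤ ((q.eval Δ.card : ℕ) : ℝ≥0∞)) :=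
  sampler
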